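import Pool.Agent.Helper13HG.Col

/-!
# Reduction of the chain of moves to hypergraph polynomials: conclusion
-/

set_option autoImplicit false

namespace Pool.Agent.Helper13HG

open MvPolynomial Pool.Agent.W206.CU

open scoped Classical in
/-- The polynomial `∑_{e ∈ H} ∏_{i ∈ e} x_i` of a finite set `H` of finite sets of variables. -/
noncomputable def hyp {V : Type} (H : Finset (Finset V)) : MvPolynomial V ℤ :=
  ∑ e ∈ H, ∏ i ∈ e, X i

open scoped Classical in
/-- `H` is not empty, its members are not empty, every variable is in at most three members of `H`,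
the variables have three colours such that every member of `H` contains at most one variable of
each colour (so it has at most three elements), the members with three elements are pairwise
disjoint, and every other member contains a variable which is in no member with three elements. -/
structure Tri {V : Type} (H : Finset (Finset V)) : Prop where
  ne : H.Nonempty
  mem : ∀ e ∈ H, e.Nonempty
  deg : ∀ v : V, (H.filter fun e => v ∈ e).card ≤ 3
  col : ∃ χ : V → Fin 3, ∀ e ∈ H, ∀ i ∈ e, ∀ j ∈ e, χ i = χ j → i = j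
  dis : ∀ e ∈ H, ∀ e' ∈ H, e.card = 3 → e'.card = 3 → e ≠ e' → Disjoint e e'
  aux : ∀ e ∈ H, e.card ≠ 3 → ∃ i ∈ e, ∀ e' ∈ H, e'.card = 3 → i ∉ e'

variable {PP : ∀ (ρ : Type) [Finite ρ], ℕ → MvPolynomial ρ ℤ → Prop}

/-- a list of terms as a multiset -/
theorem exists_mp {n : ℕ} (f : MvPolynomial (Fin n) ℤ) :
    ∃ L : Multiset (ℤ × Multiset (Fin n ⊕ Unit)), Ok L ∧
      X (Sum.inr ()) * rename Sum.inl f = mp L := by
  obtain ⟨L, hs, hL⟩ := exists_lp f
  refine ⟨((L.map fun c => (c.1, (Sum.inr () : Fin n ⊕ Unit) ::ₘ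
    ((c.2.2.map Sum.inl : List (Fin n ⊕ Unit)) : Multiset (Fin n ⊕ Unit))) :
      List (ℤ × Multiset (Fin n ⊕ Unit))) : Multiset (ℤ × Multiset (Fin n ⊕ Unit))), ?_, ?_⟩
  · intro c hc
    rw [Multiset.mem_coe, List.mem_map] at hc
    obtain ⟨d, hd, rfl⟩ := hc
    exact ⟨hs d hd, by simp⟩
  · rw [hL]
    clear hs hL
    induction L with
    | nil => simp [lp_nil, mp]
    | cons a L ih =>
      rw [lp_cons, List.map_cons, ← Multiset.cons_coe, mp_cons, ← ih, mo_cons]
      congr 1
      rw [mul_assoc]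
      congr 2
      unfold mo
      rw [Multiset.map_coe, Multiset.prod_coe, List.map_map]
      rfl

theorem sum_pmap {V M : Type} [AddCommMonoid M] (E : Multiset (Multiset V))
    (hE : ∀ s ∈ E, s.Nodup) (hn : (E.pmap Finset.mk hE).Nodup) (g : Finset V → M)
    (g' : Multiset V → M) (hg : ∀ (s : Multiset V) (hs : s.Nodup), g ⟨s, hs⟩ = g' s) :
    ∑ e ∈ (⟨E.pmap Finset.mk hE, hn⟩ : Finset (Finset V)), g e = (E.map g').sum := by
  show ((E.pmap Finset.mk hE).map g).sum = _
  rw [Multiset.map_pmap, ← Multiset.pmap_eq_map (p := fun s => s.Nodup) g' E hE]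
  congr 1
  exact Multiset.pmap_congr _ fun s _ h1 _ => hg s h1

theorem cnt_of_nodup {V : Type} {s : Multiset V} (hs : s.Nodup) (v : V) [Decidable (v ∈ s)] :
    cnt v s = if v ∈ s then 1 else 0 := by
  split_ifs with h
  · have h1 := cnt_nodup (v := v) hs
    have h2 : cnt v s ≠ 0 := fun h3 => cnt_eq_zero.1 h3 h
    omega
  · exact cnt_eq_zero.2 h

theorem exists_hyp (hc : Chain PP) {n : ℕ} (f : MvPolynomial (Fin n) ℤ)
    (hP : ∀ (ρ : Type) [Finite ρ] (m : ℕ) (F : MvPolynomial ρ ℤ), PP ρ m F → F ≠ 0)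
    (h : PP (Fin n ⊕ Unit) 0 (X (Sum.inr ()) * rename Sum.inl f)) :
    ∃ (V : Type) (_ : Fintype V) (m : ℕ) (H : Finset (Finset V)), 1 ≤ m ∧ Tri H ∧
      PP V m (hyp H) := by
  classical
  obtain ⟨L0, hL0, e0⟩ := exists_mp f
  rw [e0] at h
  have e00 : mvIn (0 : Multiset (Fin n ⊕ Unit)) 0 L0 = L0 := by simp [mvIn]
  have h0 := mv hc (s := 1) (by norm_num) 0 0 L0 (by rw [e00]; exact h)
  have hok0 := ok_out (s := 1) (Or.inl rfl) (l := 0) (A := 0) (B := L0) (by rw [e00]; exact hL0)
  obtain ⟨σ, iσ, m1, L1, hm1, hok, hnd, hcd, hoc, h1⟩ := phaseR hc _ _ 1 _ rfl hok0 h0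
  -- start of the second phase: nothing is touched
  let L2 : Multiset (ℤ × Multiset σ × Multiset σ) := L1.map fun c => (c.1, c.2, 0)
  have e2 : L2.map fo = L1 := by
    simp only [L2, Multiset.map_map, Function.comp_def, fo, add_zero]
    exact Multiset.map_id' L1
  have hI : Inv (fun _ => 0) L2 := by
    refine ⟨by rw [e2]; exact hok, ?_, ?_, by rw [e2]; exact hoc, ?_, ?_, ?_⟩
    · intro τ hτ
      obtain ⟨c, _, rfl⟩ := Multiset.mem_map.1 hτ
      simp
    · intro τ hτ
      obtain ⟨c, hc', rfl⟩ := Multiset.mem_map.1 hτ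
      simpa using hcd c hc'
    · have : tou L2 = 0 := by
        unfold tou
        rw [Multiset.map_eq_zero, Multiset.filter_eq_nil]
        intro τ hτ
        obtain ⟨c, _, rfl⟩ := Multiset.mem_map.1 hτ
        simp
      rw [this]
      exact Multiset.nodup_zero
    · have : ft L2 = 0 := by
        unfold ft
        apply Multiset.sum_eq_zero
        intro s hs
        obtain ⟨τ, hτ, rfl⟩ := Multiset.mem_map.1 hs
        obtain ⟨c, _, rfl⟩ := Multiset.mem_map.1 hτ
        simp
      rw [this]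
      exact Multiset.nodup_zero
    · intro τ hτ _ h4
      obtain ⟨c, _, rfl⟩ := Multiset.mem_map.1 hτ
      exact absurd rfl h4
  obtain ⟨V, iV, m, χ, L, hm, hI', hL, h2⟩ := phaseS hc _ σ m1 (fun _ => 0) L2 rfl hI
    (by rw [e2]; exact h1)
  have hne : ∀ τ ∈ L, τ.2.2 ≠ 0 := by
    intro τ hτ h3
    have h4 := (hI'.ok (fo τ) (Multiset.mem_map_of_mem _ hτ)).2
    apply h4
    simp only [fo]
    rw [(hL τ hτ).2, h3, add_zero]
  obtain ⟨E, hEdef⟩ : ∃ E : Multiset (Multiset V), E = L.map fun τ => τ.2.2 := ⟨_, rfl⟩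
  have hE : ∀ s ∈ E, s.Nodup := by
    intro s hs
    rw [hEdef] at hs
    obtain ⟨τ, hτ, rfl⟩ := Multiset.mem_map.1 hs
    exact Multiset.Nodup.of_map χ (hI'.col τ hτ)
  have hEn : E.Nodup := by
    have h3 : tou L = E := by
      unfold tou
      rw [Multiset.filter_eq_self.2 hne, hEdef]
      refine Multiset.map_congr rfl fun τ hτ => ?_
      rw [(hL τ hτ).2, zero_add]
    rw [← h3]
    exact hI'.dis
  have hpn : (E.pmap Finset.mk hE).Nodup :=
    hEn.pmap fun a _ b _ hab => by injection hab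
  obtain ⟨H, hH⟩ : ∃ H : Finset (Finset V), H = ⟨E.pmap Finset.mk hE, hpn⟩ := ⟨_, rfl⟩
  have hmem : ∀ e ∈ H, ∃ τ ∈ L, τ.2.2 = e.val := by
    intro e he
    rw [hH] at he
    obtain ⟨s, hs, rfl⟩ := Multiset.mem_pmap.1 he
    rw [hEdef] at hs
    obtain ⟨τ, hτ, h3⟩ := Multiset.mem_map.1 hs
    exact ⟨τ, hτ, h3⟩
  have hhyp : hyp H = mp (L.map fo) := by
    have h3 : mp (L.map fo) = (E.map mo).sum := by
      rw [mp, hEdef, Multiset.map_map, Multiset.map_map]
      congr 1
      refine Multiset.map_congr rfl fun τ hτ => ?_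
      simp only [Function.comp_apply, fo]
      rw [(hL τ hτ).1, (hL τ hτ).2, zero_add, C_1, one_mul]
    rw [h3, hyp, hH]
    exact sum_pmap E hE hpn _ mo fun s hs => rfl
  have hmemE : ∀ e ∈ H, e.val ∈ E := by
    intro e he
    rw [hH] at he
    obtain ⟨s, hs, rfl⟩ := Multiset.mem_pmap.1 he
    exact hs
  have hft : ft L = (E.map fun s => if s.card = 3 then s else 0).sum := by
    rw [ft, hEdef, Multiset.map_map]
    congr 1
    refine Multiset.map_congr rfl fun τ hτ => ?_
    simp only [Function.comp_apply]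
    rw [(hL τ hτ).2, zero_add]
  refine ⟨V, iV, m, H, by omega, ⟨?_, ?_, ?_, ?_, ?_, ?_⟩, by rw [hhyp]; exact h2⟩
  · rw [Finset.nonempty_iff_ne_empty]
    intro h3
    apply hP V m _ h2
    rw [← hhyp, hyp, h3, Finset.sum_empty]
  · intro e he
    obtain ⟨τ, hτ, h3⟩ := hmem e he
    rw [Finset.nonempty_iff_ne_empty]
    intro h4
    apply hne τ hτ
    rw [h3, h4]
    rfl
  · intro v
    rw [Finset.card_filter]
    have h3 : ∑ e ∈ H, (if v ∈ e then 1 else 0) = (E.map (cnt v)).sum := by
      rw [hH]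
      exact sum_pmap E hE hpn _ (cnt v) fun s hs => (cnt_of_nodup hs v).symm
    have h4 : occ v (L.map fo) = (E.map (cnt v)).sum := by
      rw [occ, hEdef, Multiset.map_map, Multiset.map_map]
      congr 1
      refine Multiset.map_congr rfl fun τ hτ => ?_
      simp only [Function.comp_apply, fo]
      rw [(hL τ hτ).2, zero_add]
    rw [h3, ← h4]
    exact hI'.occ v
  · refine ⟨χ, fun e he i hi j hj hij => ?_⟩
    obtain ⟨τ, hτ, h3⟩ := hmem e he
    have h4 := hI'.col τ hτ
    rw [h3] at h4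
    exact Multiset.inj_on_of_nodup_map h4 i hi j hj hij
  · intro e he e' he' h3 h3' hne'
    obtain ⟨E1, hE1⟩ := Multiset.exists_cons_of_mem (hmemE e he)
    have h4 : e'.val ∈ E1 := by
      have h5 := hmemE e' he'
      rw [hE1, Multiset.mem_cons] at h5
      exact h5.resolve_left fun h6 => hne' (Finset.val_injective h6.symm)
    obtain ⟨E2, hE2⟩ := Multiset.exists_cons_of_mem h4
    have h5 := hI'.trp
    have c1 : Multiset.card e.val = 3 := h3
    have c2 : Multiset.card e'.val = 3 := h3'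
    rw [hft, hE1, hE2, Multiset.map_cons, Multiset.map_cons, Multiset.sum_cons,
      Multiset.sum_cons, if_pos c1, if_pos c2, ← add_assoc] at h5
    have h6 : (e.val + e'.val).Nodup := Multiset.nodup_of_le (Multiset.le_add_right _ _) h5
    rw [Finset.disjoint_left]
    intro a ha ha'
    exact (Multiset.disjoint_left.1 (Multiset.nodup_add.1 h6).2.2) ha ha'
  · intro e he h3
    obtain ⟨τ, hτ, h4⟩ := hmem e he
    obtain ⟨a, ha, ha'⟩ := hI'.aux τ hτ (by
      rw [(hL τ hτ).2, zero_add, h4]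
      exact h3) (hne τ hτ)
    rw [h4] at ha
    refine ⟨a, ha, fun e' he' h3' hae' => ha' ?_⟩
    obtain ⟨E1, hE1⟩ := Multiset.exists_cons_of_mem (hmemE e' he')
    have c1 : Multiset.card e'.val = 3 := h3'
    rw [hft, hE1, Multiset.map_cons, Multiset.sum_cons, if_pos c1]
    exact Multiset.mem_add.2 (Or.inl hae')

end Pool.Agent.Helper13HG
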