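import Pool.Agent.R904.TR.Res
import Pool.Agent.Z125.UN.Red
import Pool.Agent.Helper13HG.Hyp

/-!
# Closure properties and tricoloured hypergraphs

For a property of schemes of finite type over `ℤ` with the closure properties `Bnd`, the hypersurface
`F = 0` has the property if and only if the hypersurface `F + v w = 0` has it, and similarly for
`f = 0` and `u f = 0`.
-/

set_option autoImplicit false

open CategoryTheory AlgebraicGeometry MvPolynomial
open Pool.Agent.Y116.UV Pool.Agent.Z125.UN Pool.Agent.W206.CU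

namespace Pool.Agent.Helper13B

section

variable {R : Type} [CommRing R] {sep : Prop} {P : Sch R → Prop} (hP : Bnd sep P)

/-- one equation -/
def vf {σ : Type} (F : MvPolynomial σ R) : Unit → MvPolynomial σ R := fun _ => F

/-- no equation -/
def no (σ : Type) (R : Type) [CommRing R] : Empty → MvPolynomial σ R := fun k => k.elim

theorem range_vf {σ : Type} (F : MvPolynomial σ R) : Set.range (vf F) = {F} := by
  unfold vf
  exact Set.range_const

include hP

theorem quo_iff {σ : Type} [Finite σ] (F : MvPolynomial σ R) :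
    P (aff R (MvPolynomial σ R ⧸ Ideal.span {F})) ↔ P (aff R (Pc (vf F) 1)) := by
  rw [← range_vf F]
  exact ⟨fun h => iso_alg hP.toUni (oneE (vf F)) h, fun h => iso_alg hP.toUni (oneE (vf F)).symm h⟩

theorem quo_iso {ρ ρ' : Type} [Finite ρ] [Finite ρ']
    (e : MvPolynomial ρ R ≃ₐ[R] MvPolynomial ρ' R) (F : MvPolynomial ρ R) :
    P (aff R (MvPolynomial ρ R ⧸ Ideal.span {F})) ↔
      P (aff R (MvPolynomial ρ' R ⧸ Ideal.span {e F})) := by
  have e1 : (MvPolynomial ρ R ⧸ Ideal.span {F}) ≃ₐ[R]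
      (MvPolynomial ρ' R ⧸ Ideal.span {e F}) :=
    Ideal.quotientEquivAlg _ _ e (by
      rw [Ideal.map_span, Set.image_singleton]
      rfl)
  exact ⟨fun h => iso_alg hP.toUni e1 h, fun h => iso_alg hP.toUni e1.symm h⟩

theorem unpoly {A : Type} [CommRing A] [Algebra R A] [Algebra.FiniteType R A] (n : ℕ)
    (h : P (aff R (MvPolynomial (Fin n) A))) : P (aff R A) := by
  have h1 : IsOpenImmersion (𝟙 (aff R A) : aff R A ⟶ aff R A).left :=
    inferInstanceAs (IsOpenImmersion (𝟙 (aff R A).left))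
  have h2 : Set.range (𝟙 (aff R A) : aff R A ⟶ aff R A).left =
      {x : PrimeSpectrum A | ∃ l, f1 A n l ∉ x.asIdeal} := by
    have h1 : Set.range (𝟙 (aff R A) : aff R A ⟶ aff R A).left = Set.univ := Set.range_id
    have h2 : {x : PrimeSpectrum A | ∃ l, f1 A n l ∉ x.asIdeal} = Set.univ := by
      rw [Set.eq_univ_iff_forall]
      intro x
      exact ⟨0, fun h => x.isPrime.ne_top ((Ideal.eq_top_iff_one _).mpr h)⟩
    exact h1.trans h2.symm
  have : Algebra.FiniteType R (MvPolynomial (Fin n) A) :=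
    Algebra.FiniteType.trans (S := A) inferInstance inferInstance
  exact hP.jouanolou A (n + 1) (f1 A n) (aff R A) (𝟙 _) h1 h2
    (iso_alg hP.toUni ((jouOne A n).restrictScalars R).symm h)

theorem unpoly_unit {σ κ : Type} [Finite σ] {G : κ → MvPolynomial σ R} {w : MvPolynomial σ R}
    (h : P (aff R (Pc (rl G Unit) (rename Sum.inl w)))) : P (aff R (Pc G w)) := by
  have h1 := iso_alg hP.toUni (polyE G w Unit).symm h
  have : Algebra.FiniteType R (MvPolynomial Unit (Pc G w)) :=
    Algebra.FiniteType.trans (S := Pc G w) inferInstance inferInstance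
  exact unpoly hP 1 (iso_alg hP.toUni ((renameEquiv (Pc G w)
    (Equiv.ofUnique Unit (Fin 1))).restrictScalars R) h1)

omit hP

/-- `F + v w` -/
noncomputable def stp {σ : Type} (F : MvPolynomial σ R) : MvPolynomial (σ ⊕ Fin 2) R :=
  rename Sum.inl F + X (Sum.inr 0) * X (Sum.inr 1)

section U
variable {σ : Type} (F : MvPolynomial σ R)

/-- the open part -/
abbrev Ua : Type := Pc (vf (stp F)) (1 * X (Sum.inr 0))

/-- its model -/
abbrev Ub (σ : Type) (R : Type) [CommRing R] : Type := Gm (no σ R) 1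

theorem ua_unit : IsUnit (pv (vf (stp F)) (1 * X (Sum.inr 0)) (Sum.inr 0) : Ua F) :=
  pc_unit_right (vf (stp F)) 1 (X (Sum.inr 0))

/-- the inverse -/
noncomputable def gin (σ : Type) (R : Type) [CommRing R] : Ub σ R :=
  ↑(gs_unit (no σ R) 1).unit⁻¹

theorem gs_gin : gs (no σ R) 1 * gin σ R = 1 := (gs_unit (no σ R) 1).mul_val_inv

/-- coordinates -/
noncomputable def ca : σ ⊕ Fin 2 → Ub σ R :=
  Sum.elim (fun s => pv _ _ (Sum.inl s)) ![gs (no σ R) 1,
    -(aeval (fun s => (pv _ _ (Sum.inl s) : Ub σ R)) F) * gin σ R]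

/-- coordinates -/
noncomputable def cb : σ ⊕ Unit → Ua F :=
  Sum.elim (fun s => pv _ _ (Sum.inl s)) fun _ => pv _ _ (Sum.inr 0)

theorem ca_rel : aeval (ca F) (stp F) = 0 := by
  rw [stp, map_add, aeval_rename, map_mul, aeval_X, aeval_X]
  have e1 : ca F ∘ Sum.inl = fun s => (pv _ _ (Sum.inl s) : Ub σ R) := rfl
  have e2 : ca F (Sum.inr 0) = gs (no σ R) 1 := rfl
  have e3 : ca F (Sum.inr 1) = -(aeval (fun s => (pv _ _ (Sum.inl s) : Ub σ R)) F) * gin σ R := rfl
  rw [e1, e2, e3]
  linear_combination (-(aeval (fun s => (pv _ _ (Sum.inl s) : Ub σ R)) F)) * gs_gin (σ := σ) (R := R)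

theorem ca_unit : IsUnit (aeval (ca F) (1 * X (Sum.inr 0) : MvPolynomial (σ ⊕ Fin 2) R)) := by
  have h : aeval (ca F) (1 * X (Sum.inr 0) : MvPolynomial (σ ⊕ Fin 2) R) = gs (no σ R) 1 := by
    rw [map_mul (aeval (ca F)), map_one (aeval (ca F)), one_mul, aeval_X]
    rfl
  rw [h]
  exact gs_unit (no σ R) 1

theorem cb_unit : IsUnit (aeval (cb F) (rename Sum.inl 1 * xs : MvPolynomial (σ ⊕ Unit) R)) := by
  have h : aeval (cb F) (rename Sum.inl 1 * xs : MvPolynomial (σ ⊕ Unit) R) =
      pv (vf (stp F)) (1 * X (Sum.inr 0)) (Sum.inr 0) := by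
    rw [map_mul (aeval (cb F)), map_one (rename Sum.inl), map_one (aeval (cb F)), one_mul, xs,
      aeval_X]
    rfl
  rw [h]
  exact ua_unit F

theorem ua_rel : aeval (fun s => (pv _ _ (Sum.inl s) : Ua F)) F +
    pv _ _ (Sum.inr 0) * pv _ _ (Sum.inr 1) = 0 := by
  have h := pc_rel (vf (stp F)) (1 * X (Sum.inr 0)) ()
  rw [← pc_aeval] at h
  change aeval _ (rename Sum.inl F + X (Sum.inr 0) * X (Sum.inr 1)) = 0 at h
  rw [map_add, aeval_rename, map_mul, aeval_X, aeval_X] at h
  exact h

theorem ua_rel' : -(aeval (fun s => (pv _ _ (Sum.inl s) : Ua F)) F) =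
    pv _ _ (Sum.inr 0) * pv _ _ (Sum.inr 1) := by
  have := ua_rel F
  linear_combination -this

/-- the open part of `F + v w = 0` -/
noncomputable def openE : Ua F ≃ₐ[R] Ub σ R :=
  pcEquiv (ca F) (fun _ => ca_rel F) (ca_unit F) (cb F) (fun k => k.elim) (cb_unit F)
    (by
      rintro (s | i)
      · exact pcLift_pv _ _ _ _ _ _
      · fin_cases i
        · exact pcLift_pv _ _ _ _ _ _
        · have e3 : ca F (Sum.inr 1) =
              -(aeval (fun s => (pv _ _ (Sum.inl s) : Ub σ R)) F) * gin σ R := rfl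
          show pcLift _ _ _ _ _ (ca F (Sum.inr 1)) = _
          apply (ua_unit F).mul_left_cancel
          have e4 : pcLift _ _ (cb F) (fun k : Empty => k.elim) (cb_unit F) (gs (no σ R) 1) =
              pv _ _ (Sum.inr 0) := pcLift_pv _ _ _ _ _ _
          rw [← e4, ← map_mul, e3]
          have e5 : gs (no σ R) 1 *
              (-(aeval (fun s => (pv _ _ (Sum.inl s) : Ub σ R)) F) * gin σ R) =
              -(aeval (fun s => (pv _ _ (Sum.inl s) : Ub σ R)) F) := by
            linear_combination (-(aeval (fun s => (pv _ _ (Sum.inl s) : Ub σ R)) F)) *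
              gs_gin (σ := σ) (R := R)
          rw [e5, map_neg, e4]
          have e6 : pcLift _ _ (cb F) (fun k : Empty => k.elim) (cb_unit F)
              (aeval (fun s => (pv _ _ (Sum.inl s) : Ub σ R)) F) =
              aeval (fun s => (pv _ _ (Sum.inl s) : Ua F)) F := by
            rw [← AlgHom.comp_apply, comp_aeval]
            congr 2
            funext s
            exact pcLift_pv _ _ _ _ _ _
          rw [e6]
          exact ua_rel' F)
    (by
      rintro (s | u)
      · exact pcLift_pv _ _ _ _ _ _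
      · exact pcLift_pv _ _ _ _ _ _)

/-- the closed part -/
abbrev Va : Type := Pc (adj (vf (stp F)) (X (Sum.inr 0))) 1

/-- its model -/
abbrev Vb : Type := Pc (rl (vf F) Unit) (rename Sum.inl 1)

/-- coordinates -/
noncomputable def da : σ ⊕ Fin 2 → Vb F :=
  Sum.elim (fun s => pv _ _ (Sum.inl s)) ![0, pv _ _ (Sum.inr ())]

/-- coordinates -/
noncomputable def db : σ ⊕ Unit → Va F :=
  Sum.elim (fun s => pv _ _ (Sum.inl s)) fun _ => pv _ _ (Sum.inr 1)

theorem vb_rel : aeval (fun s => (pv _ _ (Sum.inl s) : Vb F)) F = 0 := by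
  have h := pc_rel (rl (vf F) Unit) (rename Sum.inl 1) ()
  rw [← pc_aeval] at h
  change aeval _ (rename Sum.inl F) = 0 at h
  rw [aeval_rename] at h
  exact h

theorem va_zero : (pv _ _ (Sum.inr 0) : Va F) = 0 :=
  pc_rel (adj (vf (stp F)) (X (Sum.inr 0))) 1 none

theorem va_rel : aeval (fun s => (pv _ _ (Sum.inl s) : Va F)) F = 0 := by
  have h := pc_rel (adj (vf (stp F)) (X (Sum.inr 0))) 1 (some ())
  rw [← pc_aeval] at h
  change aeval _ (rename Sum.inl F + X (Sum.inr 0) * X (Sum.inr 1)) = 0 at h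
  rw [map_add, aeval_rename, map_mul, aeval_X, aeval_X, va_zero, zero_mul, add_zero] at h
  exact h

theorem da_rel (k : Option Unit) : aeval (da F) (adj (vf (stp F)) (X (Sum.inr 0)) k) = 0 := by
  rcases k with _ | k
  · change aeval (da F) (X (Sum.inr 0)) = 0
    rw [aeval_X]
    rfl
  · change aeval (da F) (rename Sum.inl F + X (Sum.inr 0) * X (Sum.inr 1)) = 0
    rw [map_add, aeval_rename, map_mul, aeval_X, aeval_X]
    have e1 : da F ∘ Sum.inl = fun s => (pv _ _ (Sum.inl s) : Vb F) := rfl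
    have e2 : da F (Sum.inr 0) = 0 := rfl
    rw [e1, e2, vb_rel, zero_mul, add_zero]

theorem da_unit : IsUnit (aeval (da F) (1 : MvPolynomial (σ ⊕ Fin 2) R)) := by
  rw [map_one (aeval (da F))]
  exact isUnit_one

theorem db_rel (k : Unit) : aeval (db F) (rl (vf F) Unit k) = 0 := by
  change aeval (db F) (rename Sum.inl F) = 0
  rw [aeval_rename]
  exact va_rel F

theorem db_unit : IsUnit (aeval (db F) (rename Sum.inl 1 : MvPolynomial (σ ⊕ Unit) R)) := by
  have h : aeval (db F) (rename Sum.inl 1 : MvPolynomial (σ ⊕ Unit) R) = 1 := by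
    rw [map_one (rename Sum.inl), map_one (aeval (db F))]
  rw [h]
  exact isUnit_one

/-- the closed part of `F + v w = 0` -/
noncomputable def closedE : Va F ≃ₐ[R] Vb F :=
  pcEquiv (da F) (da_rel F) (da_unit F) (db F) (db_rel F) (db_unit F)
    (by
      rintro (s | i)
      · exact pcLift_pv _ _ _ _ _ _
      · fin_cases i
        · have e2 : da F (Sum.inr 0) = 0 := rfl
          show pcLift _ _ _ _ _ (da F (Sum.inr 0)) = _
          rw [e2, map_zero]
          exact (va_zero F).symm
        · exact pcLift_pv _ _ _ _ _ _)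
    (by
      rintro (s | u)
      · exact pcLift_pv _ _ _ _ _ _
      · exact pcLift_pv _ _ _ _ _ _)

end U

/-- `u F` -/
noncomputable def beg {σ : Type} (F : MvPolynomial σ R) : MvPolynomial (σ ⊕ Unit) R :=
  X (Sum.inr ()) * rename Sum.inl F

section W
variable {σ : Type} (F : MvPolynomial σ R)

theorem unit_one' {σ' κ' : Type} (G' : κ' → MvPolynomial σ' R) (w' : MvPolynomial σ' R) :
    IsUnit (pc G' w' 1) := by
  rw [map_one (pc G' w')]
  exact isUnit_one

theorem unit_rone {σ σ' κ' : Type} (G' : κ' → MvPolynomial σ' R) (w' : MvPolynomial σ' R)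
    (f : σ → σ') : IsUnit (pc G' w' (rename f (1 : MvPolynomial σ R))) := by
  rw [map_one (rename f)]
  exact unit_one' G' w'

/-- the closed part -/
noncomputable def closedB : Pc (adj (rl (no σ R) Unit) xs) (rename Sum.inl 1) ≃ₐ[R]
    Pc (adj (vf (beg F)) xs) 1 :=
  pcSame
    (by
      rintro (_ | k)
      · exact pc_rel (adj (vf (beg F)) xs) 1 none
      · exact k.elim)
    (unit_rone _ _ _)
    (by
      rintro (_ | k)
      · exact pc_rel (adj (rl (no σ R) Unit) xs) (rename Sum.inl 1) none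
      · change pc _ _ (X (Sum.inr ()) * rename Sum.inl F) = 0
        have h := pc_rel (adj (rl (no σ R) Unit) xs) (rename Sum.inl 1) none
        change pc _ _ (X (Sum.inr ())) = 0 at h
        rw [map_mul (pc _ _), h, zero_mul])
    (unit_one' _ _)

/-- the open part -/
noncomputable def openB : Pc (vf (beg F)) (1 * xs) ≃ₐ[R] Gm (vf F) 1 :=
  pcSame
    (by
      intro k
      change pc _ _ (X (Sum.inr ()) * rename Sum.inl F) = 0
      have h := pc_rel (rl (vf F) Unit) (rename Sum.inl 1 * xs) ()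
      change pc _ _ (rename Sum.inl F) = 0 at h
      rw [map_mul (pc _ _), h, mul_zero])
    (by
      have h := pc_unit_right (rl (vf F) Unit) (rename Sum.inl 1) xs
      rw [map_mul (pc _ _), map_one (pc _ _), one_mul]
      exact h)
    (by
      intro k
      change pc _ _ (rename Sum.inl F) = 0
      have h := pc_rel (vf (beg F)) (1 * xs) ()
      change pc _ _ (X (Sum.inr ()) * rename Sum.inl F) = 0 at h
      rw [map_mul (pc _ _)] at h
      have hu : IsUnit (pc (vf (beg F)) (1 * xs) (X (Sum.inr ()))) :=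
        pc_unit_right (vf (beg F)) 1 xs
      exact (hu.mul_right_eq_zero).mp h)
    (by
      rw [map_mul (pc _ _)]
      exact (unit_rone _ _ _).mul (pc_unit_right (vf (beg F)) 1 xs))

end W

include hP

theorem beg_pc {σ : Type} [Fintype σ] (F : MvPolynomial σ R) (h : P (aff R (Pc (vf (beg F)) 1))) :
    P (aff R (Pc (vf F) 1)) := by
  have hc : P (aff R (Pc (adj (vf (beg F)) xs) 1)) :=
    iso_alg hP.toUni (closedB F) (iso_alg hP.toUni (lineE (no σ R) 1) (pc_space hP))
  exact pc_torus (vf F) 1 hP (iso_alg hP.toUni (openB F) (pc_open hP h hc))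

theorem step_pc {σ : Type} [Fintype σ] (F : MvPolynomial σ R) (h : P (aff R (Pc (vf (stp F)) 1))) :
    P (aff R (Pc (vf F) 1)) := by
  have ho : P (aff R (Pc (vf (stp F)) (1 * X (Sum.inr 0)))) :=
    iso_alg hP.toUni (openE F).symm (pc_gm hP (pc_space hP))
  have hc : P (aff R (Pc (adj (vf (stp F)) (X (Sum.inr 0))) 1)) := pc_closed hP h ho
  exact unpoly_unit hP (iso_alg hP.toUni (closedE F) hc)

theorem beg_pc' {σ : Type} [Fintype σ] (F : MvPolynomial σ R) (h : P (aff R (Pc (vf F) 1))) :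
    P (aff R (Pc (vf (beg F)) 1)) := by
  have hc : P (aff R (Pc (adj (vf (beg F)) xs) 1)) :=
    iso_alg hP.toUni (closedB F) (iso_alg hP.toUni (lineE (no σ R) 1) (pc_space hP))
  exact pc_total hP hc (iso_alg hP.toUni (openB F).symm (pc_gm hP h))

theorem step_pc' {σ : Type} [Fintype σ] (F : MvPolynomial σ R) (h : P (aff R (Pc (vf F) 1))) :
    P (aff R (Pc (vf (stp F)) 1)) := by
  have ho : P (aff R (Pc (vf (stp F)) (1 * X (Sum.inr 0)))) :=
    iso_alg hP.toUni (openE F).symm (pc_gm hP (pc_space hP))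
  have hc : P (aff R (Pc (adj (vf (stp F)) (X (Sum.inr 0))) 1)) :=
    iso_alg hP.toUni (closedE F).symm (pc_poly hP Unit h)
  exact pc_total hP hc ho

end

section int

variable {R : Type} [CommRing R] {sep : Prop} {P : Sch R → Prop} (hP : Bnd sep P)

/-- the property of `F = 0` -/
def Quo (P : Sch R → Prop) {σ : Type} (F : MvPolynomial σ R) : Prop :=
  P (aff R (MvPolynomial σ R ⧸ Ideal.span {F}))

/-- The polynomial with coefficients in `R` given by a polynomial with integral coefficients. -/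
noncomputable def toR (R : Type) [CommRing R] {σ : Type} (F : MvPolynomial σ ℤ) :
    MvPolynomial σ R := MvPolynomial.map (algebraMap ℤ R) F

theorem toR_aeval {ρ ρ' : Type} (v : ρ → MvPolynomial ρ' ℤ) (F : MvPolynomial ρ ℤ) :
    aeval (fun i => toR R (v i)) (toR R F) = toR R (aeval v F) := by
  induction F using MvPolynomial.induction_on with
  | C c =>
    rw [toR, map_C, ← algebraMap_eq, AlgHom.commutes, ← algebraMap_eq, AlgHom.commutes,
      algebraMap_eq, algebraMap_eq, toR, map_C]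
  | add p q hp hq =>
    simp only [toR, map_add] at hp hq ⊢
    rw [hp, hq]
  | mul_X p i hp =>
    simp only [toR, map_mul] at hp ⊢
    rw [hp, map_X, aeval_X, aeval_X]

theorem aeval_alg {ρ ρ' : Type} (e : MvPolynomial ρ ℤ ≃ₐ[ℤ] MvPolynomial ρ' ℤ)
    (F : MvPolynomial ρ ℤ) : aeval (fun i => e (X i)) F = e F := by
  have h1 : (aeval fun i => e (X i) : MvPolynomial ρ ℤ →ₐ[ℤ] MvPolynomial ρ' ℤ) =
      e.toAlgHom := by
    apply MvPolynomial.algHom_ext
    intro i
    simp
  rw [h1]
  rfl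

/-- The base change of an isomorphism. -/
noncomputable def isoR (R : Type) [CommRing R] {ρ ρ' : Type}
    (e : MvPolynomial ρ ℤ ≃ₐ[ℤ] MvPolynomial ρ' ℤ) : MvPolynomial ρ R ≃ₐ[R] MvPolynomial ρ' R :=
  AlgEquiv.ofAlgHom (aeval fun i => toR R (e (X i))) (aeval fun i => toR R (e.symm (X i)))
    (by
      apply MvPolynomial.algHom_ext
      intro i
      rw [AlgHom.comp_apply, aeval_X, toR_aeval, aeval_alg, AlgEquiv.apply_symm_apply, toR, map_X]
      rfl)
    (by
      apply MvPolynomial.algHom_ext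
      intro i
      rw [AlgHom.comp_apply, aeval_X, toR_aeval, aeval_alg, AlgEquiv.symm_apply_apply, toR, map_X]
      rfl)

theorem isoR_toR {ρ ρ' : Type} (e : MvPolynomial ρ ℤ ≃ₐ[ℤ] MvPolynomial ρ' ℤ)
    (F : MvPolynomial ρ ℤ) : isoR R e (toR R F) = toR R (e F) := by
  change aeval (fun i => toR R (e (X i))) (toR R F) = _
  rw [toR_aeval, aeval_alg]

include hP

theorem quo_step {ρ : Type} [Finite ρ] (F : MvPolynomial ρ R) :
    Quo P (rename Sum.inl F + X (Sum.inr 0) * X (Sum.inr 1) : MvPolynomial (ρ ⊕ Fin 2) R) ↔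
      Quo P F := by
  have := Fintype.ofFinite ρ
  exact ⟨fun h => (quo_iff hP F).mpr (step_pc hP F ((quo_iff hP (stp F)).mp h)),
    fun h => (quo_iff hP (stp F)).mpr (step_pc' hP F ((quo_iff hP F).mp h))⟩

theorem quo_start {ρ : Type} [Finite ρ] (F : MvPolynomial ρ R) :
    Quo P (X (Sum.inr ()) * rename Sum.inl F : MvPolynomial (ρ ⊕ Unit) R) ↔ Quo P F := by
  have := Fintype.ofFinite ρ
  exact ⟨fun h => (quo_iff hP F).mpr (beg_pc hP F ((quo_iff hP (beg F)).mp h)),
    fun h => (quo_iff hP (beg F)).mpr (beg_pc' hP F ((quo_iff hP F).mp h))⟩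

omit hP in
/-- the property of the chain of moves -/
def PQ (P : Sch R → Prop) {n : ℕ} (f : MvPolynomial (Fin n) R) (ρ : Type) [Finite ρ] (_ : ℕ)
    (F : MvPolynomial ρ ℤ) : Prop :=
  (Quo P (toR R F) ↔ Quo P f) ∧ toR R F ≠ 0

theorem pq_chain [Nontrivial R] {n : ℕ} (f : MvPolynomial (Fin n) R) : Chain (PQ P f) where
  iso := by
    intro ρ ρ' _ _ e m F ⟨h1, h2⟩
    refine ⟨?_, fun h => h2 ?_⟩
    · rw [← isoR_toR]
      exact (quo_iso hP (isoR R e) (toR R F)).symm.trans h1
    · rw [← isoR_toR] at h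
      exact (map_eq_zero_iff _ (isoR R e).injective).mp h
  step := by
    intro ρ _ m F ⟨h1, h2⟩
    have e0 : toR R (rename Sum.inl F + X (Sum.inr 0) * X (Sum.inr 1) :
        MvPolynomial (ρ ⊕ Fin 2) ℤ) =
        rename Sum.inl (toR R F) + X (Sum.inr 0) * X (Sum.inr 1) := by
      simp [toR, map_rename]
    refine ⟨?_, fun h0 => ?_⟩
    · rw [e0]
      exact (quo_step hP (toR R F)).trans h1
    rw [e0] at h0
    have a := congrArg (eval (Sum.elim (0 : ρ → R) 1)) h0
    have b := congrArg (eval (Sum.elim (0 : ρ → R) 0)) h0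
    rw [map_add, eval_rename, Sum.elim_comp_inl, map_mul, eval_X, eval_X, map_zero] at a b
    simp only [Sum.elim_inr, Pi.one_apply, Pi.zero_apply, mul_one, mul_zero, add_zero] at a b
    rw [b] at a
    norm_num at a

theorem exists_tri [Nontrivial R] (hR : Function.Surjective (Int.cast : ℤ → R)) {n : ℕ}
    (f : MvPolynomial (Fin n) R) (hf : f ≠ 0) :
    ∃ (V : Type) (_ : Fintype V) (H : Finset (Finset V)),
      Pool.Agent.Helper13HG.Tri H ∧ (Quo P (toR R (Pool.Agent.Helper13HG.hyp H)) ↔ Quo P f) := by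
  obtain ⟨g, hg⟩ : ∃ g : MvPolynomial (Fin n) ℤ, toR R g = f :=
    MvPolynomial.map_surjective (algebraMap ℤ R) hR f
  have e0 : toR R (X (Sum.inr ()) * rename Sum.inl g : MvPolynomial (Fin n ⊕ Unit) ℤ) =
      X (Sum.inr ()) * rename Sum.inl f := by
    rw [← hg]
    simp [toR, map_rename]
  obtain ⟨V, iV, m, H, -, h1, h2⟩ := Pool.Agent.Helper13HG.exists_hyp (pq_chain hP f) g
    (fun _ _ _ F h hF => h.2 (by rw [hF, toR, map_zero]))
    ⟨by rw [e0]; exact quo_start hP f, by
      rw [e0]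
      intro h
      have h3 : rename Sum.inl f = (0 : MvPolynomial (Fin n ⊕ Unit) R) :=
        isRegular_X.left (show X (Sum.inr ()) * _ = X (Sum.inr ()) * _ by rw [h, mul_zero])
      exact hf ((map_eq_zero_iff _ (rename_injective _ Sum.inl_injective)).mp h3)⟩
  exact ⟨V, iV, H, h1, h2.1⟩

end int

end Pool.Agent.Helper13B
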