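import Pool.Agent.Helper13HG.Red

/-!
# Reduction of the chain of moves to hypergraph polynomials: signs and colours
-/

set_option autoImplicit false

namespace Pool.Agent.Helper13HG

open MvPolynomial Pool.Agent.W206.CU

section col
variable {σ : Type}

/-- forget the partition of a monomial into an old and a new part -/
def fo (τ : ℤ × Multiset σ × Multiset σ) : ℤ × Multiset σ := (τ.1, τ.2.1 + τ.2.2)

/-- the terms in more variables -/
def li3 (τ : ℤ × Multiset σ × Multiset σ) :
    ℤ × Multiset (σ ⊕ Fin 2) × Multiset (σ ⊕ Fin 2) :=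
  (τ.1, τ.2.1.map Sum.inl, τ.2.2.map Sum.inl)

theorem fo_li3 (τ : ℤ × Multiset σ × Multiset σ) : fo (li3 τ) = li (fo τ) := by
  simp [fo, li3, li, Multiset.map_add]

open scoped Classical in
/-- the monomials with new variables -/
noncomputable def tou (L : Multiset (ℤ × Multiset σ × Multiset σ)) : Multiset (Multiset σ) :=
  (L.filter fun τ => τ.2.2 ≠ 0).map fun τ => τ.2.1 + τ.2.2

theorem tou_cons {τ : ℤ × Multiset σ × Multiset σ} (h : τ.2.2 ≠ 0)
    (L : Multiset (ℤ × Multiset σ × Multiset σ)) :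
    tou (τ ::ₘ L) = (τ.2.1 + τ.2.2) ::ₘ tou L := by
  classical
  unfold tou
  rw [Multiset.filter_cons_of_pos (p := fun τ : ℤ × Multiset σ × Multiset σ => τ.2.2 ≠ 0) _ h,
    Multiset.map_cons]

theorem tou_cons_neg {τ : ℤ × Multiset σ × Multiset σ} (h : τ.2.2 = 0)
    (L : Multiset (ℤ × Multiset σ × Multiset σ)) :
    tou (τ ::ₘ L) = tou L := by
  classical
  unfold tou
  rw [Multiset.filter_cons_of_neg (p := fun τ : ℤ × Multiset σ × Multiset σ => τ.2.2 ≠ 0) _
    (by simpa using h)]

theorem tou_li3 (L : Multiset (ℤ × Multiset σ × Multiset σ)) :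
    tou (L.map li3) = (tou L).map (Multiset.map Sum.inl) := by
  induction L using Multiset.induction_on with
  | empty => simp [tou]
  | cons a s ih =>
    rw [Multiset.map_cons]
    by_cases h : a.2.2 = 0
    · rw [tou_cons_neg h, tou_cons_neg (by simp [li3, h]), ih]
    · rw [tou_cons h, tou_cons (by simpa [li3] using h), ih, Multiset.map_cons]
      congr 1
      simp [li3, Multiset.map_add]

theorem tou_le (τ : ℤ × Multiset σ × Multiset σ) (L : Multiset (ℤ × Multiset σ × Multiset σ)) :
    tou L ≤ tou (τ ::ₘ L) := by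
  by_cases h : τ.2.2 = 0
  · rw [tou_cons_neg h]
  · rw [tou_cons h]
    exact Multiset.le_cons_self _ _

open scoped Classical in
/-- all new variables of the cubic monomials -/
noncomputable def ft (L : Multiset (ℤ × Multiset σ × Multiset σ)) : Multiset σ :=
  (L.map fun τ => if (τ.2.1 + τ.2.2).card = 3 then τ.2.2 else 0).sum

theorem ft_cons (τ : ℤ × Multiset σ × Multiset σ) (L : Multiset (ℤ × Multiset σ × Multiset σ)) :
    ft (τ ::ₘ L) = (if (τ.2.1 + τ.2.2).card = 3 then τ.2.2 else 0) + ft L := by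
  unfold ft
  rw [Multiset.map_cons, Multiset.sum_cons]

theorem ft_li3 (L : Multiset (ℤ × Multiset σ × Multiset σ)) :
    ft (L.map li3) = (ft L).map Sum.inl := by
  induction L using Multiset.induction_on with
  | empty => simp [ft]
  | cons a s ih =>
    rw [Multiset.map_cons, ft_cons, ft_cons, ih, Multiset.map_add]
    congr 1
    simp only [li3]
    rw [← Multiset.map_add, Multiset.card_map]
    split_ifs
    · rfl
    · rfl

/-- the invariant -/
structure Inv (χ : σ → Fin 3) (L : Multiset (ℤ × Multiset σ × Multiset σ)) : Prop where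
  ok : Ok (L.map fo)
  col : ∀ τ ∈ L, (τ.2.2.map χ).Nodup
  crd : ∀ τ ∈ L, (τ.2.1 + τ.2.2).card ≤ 3
  occ : ∀ v, occ v (L.map fo) ≤ 3
  dis : (tou L).Nodup
  trp : (ft L).Nodup
  aux : ∀ τ ∈ L, (τ.2.1 + τ.2.2).card ≠ 3 → τ.2.2 ≠ 0 → ∃ a ∈ τ.2.2, a ∉ ft L

/-- the new colours -/
def cn (χ : σ → Fin 3) (k j : Fin 3) : σ ⊕ Fin 2 → Fin 3 := Sum.elim χ ![k, j]

theorem map_cn (χ : σ → Fin 3) (k j : Fin 3) (s : Multiset σ) :
    (s.map Sum.inl).map (cn χ k j) = s.map χ := by
  rw [Multiset.map_map]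
  rfl

/-- the new list -/
def nl (c : ℤ) (x : σ) (r' f' : Multiset σ) (B : Multiset (ℤ × Multiset σ × Multiset σ)) :
    Multiset (ℤ × Multiset (σ ⊕ Fin 2) × Multiset (σ ⊕ Fin 2)) :=
  (1, 0, {Sum.inr 1, Sum.inr 0}) ::ₘ (1, 0, {Sum.inr 1, Sum.inl x}) ::ₘ
    (-c, r'.map Sum.inl, Sum.inr 0 ::ₘ f'.map Sum.inl) ::ₘ B.map li3

theorem fo_in {c : ℤ} {x : σ} {r f r' f' : Multiset σ} (hx : r + f = x ::ₘ (r' + f'))
    (B : Multiset (ℤ × Multiset σ × Multiset σ)) :
    (((c, r, f) ::ₘ B).map fo) = mvIn {x} {(c, r' + f')} (B.map fo) := by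
  rw [Multiset.map_cons, mvIn, fo]
  simp only [hx, Multiset.map_singleton, Multiset.singleton_add]

theorem fo_out (c : ℤ) (x : σ) (r' f' : Multiset σ)
    (B : Multiset (ℤ × Multiset σ × Multiset σ)) :
    (nl c x r' f' B).map fo = mvOut (-1) {x} {(c, r' + f')} (B.map fo) := by
  have e : (B.map li3).map fo = (B.map fo).map li := by
    rw [Multiset.map_map, Multiset.map_map]
    exact Multiset.map_congr rfl fun τ _ => fo_li3 τ
  rw [nl, mvOut]
  simp only [Multiset.map_cons, e]
  simp only [fo, zero_add, Multiset.map_singleton, neg_neg,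
    Multiset.singleton_add, neg_mul, one_mul, Multiset.map_add, Multiset.add_cons]
  rfl

theorem ft_nl {c : ℤ} {x : σ} {r f r' f' : Multiset σ} (hx : r + f = x ::ₘ (r' + f'))
    (B : Multiset (ℤ × Multiset σ × Multiset σ)) :
    ft (nl c x r' f' B) =
      (if (r + f).card = 3 then (Sum.inr 0 : σ ⊕ Fin 2) ::ₘ f'.map Sum.inl else 0) +
        (ft B).map Sum.inl := by
  rw [nl, ft_cons, ft_cons, ft_cons, ft_li3]
  have e1 : ((0 : Multiset (σ ⊕ Fin 2)) + {Sum.inr 1, Sum.inr 0}).card ≠ 3 := by simp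
  have e2 : ((0 : Multiset (σ ⊕ Fin 2)) + {Sum.inr 1, Sum.inl x}).card ≠ 3 := by simp
  have e3 : (r'.map Sum.inl + (Sum.inr 0 : σ ⊕ Fin 2) ::ₘ f'.map Sum.inl).card =
      (r + f).card := by
    rw [hx, Multiset.card_cons, Multiset.card_add, Multiset.card_add, Multiset.card_cons,
      Multiset.card_map, Multiset.card_map]
    ring
  simp only
  rw [if_neg e1, if_neg e2, zero_add, zero_add, e3]

theorem inv_step {χ : σ → Fin 3} {B : Multiset (ℤ × Multiset σ × Multiset σ)} {c : ℤ} {x : σ}
    {r f r' f' : Multiset σ} (hx : r + f = x ::ₘ (r' + f')) (hle : f' ≤ f) {k j : Fin 3}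
    (hk : k ∉ f'.map χ) (hf : (f'.map χ).Nodup) (hjk : j ≠ k) (hjx : j ≠ χ x)
    (h : Inv χ ((c, r, f) ::ₘ B)) : Inv (cn χ k j) (nl c x r' f' B) := by
  refine ⟨?_, ?_, ?_, ?_, ?_, ?_, ?_⟩
  · rw [fo_out]
    apply ok_out (Or.inr rfl)
    rw [← fo_in hx]
    exact h.ok
  · intro τ hτ
    rw [nl, Multiset.mem_cons, Multiset.mem_cons, Multiset.mem_cons] at hτ
    rcases hτ with rfl | rfl | rfl | hτ
    · simpa [cn] using hjk
    · simpa [cn] using hjx
    · simp only
      rw [Multiset.map_cons, map_cn, Multiset.nodup_cons]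
      exact ⟨hk, hf⟩
    · obtain ⟨τ', hτ', rfl⟩ := Multiset.mem_map.1 hτ
      simp only [li3]
      rw [map_cn]
      exact h.col τ' (Multiset.mem_cons_of_mem hτ')
  · intro τ hτ
    rw [nl, Multiset.mem_cons, Multiset.mem_cons, Multiset.mem_cons] at hτ
    rcases hτ with rfl | rfl | rfl | hτ
    · simp
    · simp
    · have h1 := h.crd _ (Multiset.mem_cons_self _ _)
      simp only at h1 ⊢
      rw [hx, Multiset.card_cons, Multiset.card_add] at h1
      rw [Multiset.card_add, Multiset.card_cons, Multiset.card_map, Multiset.card_map]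
      omega
    · obtain ⟨τ', hτ', rfl⟩ := Multiset.mem_map.1 hτ
      have h1 := h.crd τ' (Multiset.mem_cons_of_mem hτ')
      simp only [li3]
      rw [Multiset.card_add] at h1 ⊢
      rw [Multiset.card_map, Multiset.card_map]
      exact h1
  · have h1 := h.occ
    rw [fo_in hx] at h1
    rw [fo_out]
    rintro (v | i)
    · have h2 := h1 v
      rw [occ_in, Multiset.card_singleton, one_mul] at h2
      rw [occ_out]
      exact h2
    · fin_cases i
      · exact (occ_y _ _ _ _).trans_le (by simp)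
      · exact (occ_t _ _ _ _).trans_le (by norm_num)
  · rw [nl, tou_cons (by simp), tou_cons (by simp), tou_cons (by simp), tou_li3]
    have h1 : ((tou B).map (Multiset.map (Sum.inl : σ → σ ⊕ Fin 2))).Nodup :=
      (Multiset.nodup_of_le (tou_le _ _) h.dis).map (Multiset.map_injective Sum.inl_injective)
    have h2 : ∀ s ∈ (tou B).map (Multiset.map (Sum.inl : σ → σ ⊕ Fin 2)), ∀ i,
        (Sum.inr i : σ ⊕ Fin 2) ∉ s := by
      intro s hs i hi
      obtain ⟨s', _, rfl⟩ := Multiset.mem_map.1 hs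
      exact inr_notMem i s' hi
    simp only [zero_add]
    rw [Multiset.nodup_cons, Multiset.nodup_cons, Multiset.nodup_cons]
    refine ⟨?_, ?_, ?_, h1⟩
    · rw [Multiset.mem_cons, Multiset.mem_cons]
      rintro (h3 | h3 | h3)
      · have h4 : (Sum.inr 0 : σ ⊕ Fin 2) ∈ ({Sum.inr 1, Sum.inl x} : Multiset (σ ⊕ Fin 2)) := by
          rw [← h3]
          simp
        simp at h4
      · have h4 : (Sum.inr 1 : σ ⊕ Fin 2) ∈ r'.map Sum.inl + Sum.inr 0 ::ₘ f'.map Sum.inl := by
          rw [← h3]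
          simp
        simp at h4
      · exact h2 _ h3 1 (by simp)
    · rw [Multiset.mem_cons]
      rintro (h3 | h3)
      · have h4 : (Sum.inr 1 : σ ⊕ Fin 2) ∈ r'.map Sum.inl + Sum.inr 0 ::ₘ f'.map Sum.inl := by
          rw [← h3]
          simp
        simp at h4
      · exact h2 _ h3 1 (by simp)
    · intro h3
      exact h2 _ h3 0 (by simp)
  · have h1 := h.trp
    rw [ft_cons] at h1
    rw [nl, ft_cons, ft_cons, ft_cons, ft_li3]
    have e1 : ((0 : Multiset (σ ⊕ Fin 2)) + {Sum.inr 1, Sum.inr 0}).card ≠ 3 := by simp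
    have e2 : ((0 : Multiset (σ ⊕ Fin 2)) + {Sum.inr 1, Sum.inl x}).card ≠ 3 := by simp
    have e3 : (r'.map Sum.inl + (Sum.inr 0 : σ ⊕ Fin 2) ::ₘ f'.map Sum.inl).card =
        (r + f).card := by
      rw [hx, Multiset.card_cons, Multiset.card_add, Multiset.card_add, Multiset.card_cons,
        Multiset.card_map, Multiset.card_map]
      ring
    simp only
    rw [if_neg e1, if_neg e2, zero_add, zero_add, e3]
    simp only at h1
    split_ifs at h1 ⊢ with h2
    · rw [Multiset.cons_add, Multiset.nodup_cons, ← Multiset.map_add]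
      exact ⟨inr_notMem 0 _, (Multiset.nodup_of_le (add_le_add_left hle _) h1).map
        Sum.inl_injective⟩
    · rw [zero_add] at h1 ⊢
      exact h1.map Sum.inl_injective
  · have e0 := ft_nl (c := c) hx B
    have ht : (Sum.inr 1 : σ ⊕ Fin 2) ∉ ft (nl c x r' f' B) := by
      rw [e0]
      split_ifs
      · rw [Multiset.cons_add, Multiset.mem_cons, ← Multiset.map_add]
        rintro (h3 | h3)
        · simp at h3
        · exact inr_notMem 1 _ h3
      · rw [zero_add]
        exact inr_notMem 1 _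
    intro τ hτ h3 h4
    rw [nl, Multiset.mem_cons, Multiset.mem_cons, Multiset.mem_cons] at hτ
    rcases hτ with rfl | rfl | rfl | hτ
    · exact ⟨Sum.inr 1, by simp, ht⟩
    · exact ⟨Sum.inr 1, by simp, ht⟩
    · refine ⟨Sum.inr 0, Multiset.mem_cons_self _ _, ?_⟩
      have e3 : (r'.map Sum.inl + (Sum.inr 0 : σ ⊕ Fin 2) ::ₘ f'.map Sum.inl).card =
          (r + f).card := by
        rw [hx, Multiset.card_cons, Multiset.card_add, Multiset.card_add, Multiset.card_cons,
          Multiset.card_map, Multiset.card_map]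
        ring
      simp only at h3
      rw [e3] at h3
      rw [e0, if_neg h3, zero_add]
      exact inr_notMem 0 _
    · obtain ⟨τ', hτ', rfl⟩ := Multiset.mem_map.1 hτ
      simp only [li3] at h3 h4 ⊢
      rw [← Multiset.map_add, Multiset.card_map] at h3
      obtain ⟨a, ha, ha'⟩ := h.aux τ' (Multiset.mem_cons_of_mem hτ') h3 (by
        intro h5
        apply h4
        rw [h5, Multiset.map_zero])
      refine ⟨Sum.inl a, Multiset.mem_map_of_mem _ ha, ?_⟩
      rw [ft_cons] at ha'
      simp only at ha'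
      rw [e0]
      split_ifs at ha' ⊢ with h5
      · rw [Multiset.cons_add, Multiset.mem_cons, ← Multiset.map_add]
        rintro (h6 | h6)
        · simp at h6
        · obtain ⟨b, hb, hb'⟩ := Multiset.mem_map.1 h6
          rw [Sum.inl.injEq] at hb'
          subst hb'
          exact ha' (Multiset.mem_of_le (add_le_add_left hle _) hb)
      · rw [zero_add] at ha' ⊢
        intro h6
        obtain ⟨b, hb, hb'⟩ := Multiset.mem_map.1 h6
        rw [Sum.inl.injEq] at hb'
        subst hb'
        exact ha' hb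

/-- the measure of a term -/
def mt (τ : ℤ × Multiset σ × Multiset σ) : ℕ := 2 * τ.2.1.card + if τ.1 = -1 then 1 else 0

/-- the measure -/
def ms (L : Multiset (ℤ × Multiset σ × Multiset σ)) : ℕ := (L.map mt).sum

theorem ms_cons (τ : ℤ × Multiset σ × Multiset σ) (L : Multiset (ℤ × Multiset σ × Multiset σ)) :
    ms (τ ::ₘ L) = mt τ + ms L := by simp [ms]

theorem ms_li3 (L : Multiset (ℤ × Multiset σ × Multiset σ)) : ms (L.map li3) = ms L := by
  unfold ms
  rw [Multiset.map_map]
  congr 1
  refine Multiset.map_congr rfl fun c _ => ?_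
  simp only [Function.comp_apply, mt, li3, Multiset.card_map]
  rfl

theorem ms_nl (c : ℤ) (x : σ) (r' f' : Multiset σ)
    (B : Multiset (ℤ × Multiset σ × Multiset σ)) :
    ms (nl c x r' f' B) = (2 * r'.card + if -c = -1 then 1 else 0) + ms B := by
  rw [nl, ms_cons, ms_cons, ms_cons, ms_li3]
  simp [mt]

theorem exists_color (s : Multiset (Fin 3)) (hs : s.card ≤ 2) : ∃ k, k ∉ s := by
  by_contra h
  push Not at h
  have h1 : (Finset.univ : Finset (Fin 3)) ⊆ s.toFinset := fun k _ => by simpa using h k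
  have h2 := Finset.card_le_card h1
  have h3 := Multiset.toFinset_card_le s
  simp at h2
  omega

theorem exists_color2 (a b : Fin 3) : ∃ j : Fin 3, j ≠ a ∧ j ≠ b := by
  revert a b
  decide

variable {PP : ∀ (ρ : Type) [Finite ρ], ℕ → MvPolynomial ρ ℤ → Prop}

theorem phaseS (hc : Chain PP) (N : ℕ) : ∀ (σ : Type) [Fintype σ] (m : ℕ) (χ : σ → Fin 3)
    (L : Multiset (ℤ × Multiset σ × Multiset σ)), ms L = N → Inv χ L → PP σ m (mp (L.map fo)) →
    ∃ (σ' : Type) (_ : Fintype σ') (m' : ℕ) (χ' : σ' → Fin 3)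
      (L' : Multiset (ℤ × Multiset σ' × Multiset σ')),
      m ≤ m' ∧ Inv χ' L' ∧ (∀ τ ∈ L', τ.1 = 1 ∧ τ.2.1 = 0) ∧ PP σ' m' (mp (L'.map fo)) := by
  induction N using Nat.strong_induction_on with
  | _ N ih =>
    intro σ _ m χ L hN hL h
    by_cases h1 : ∃ τ ∈ L, mt τ ≠ 0
    · obtain ⟨⟨c, r, f⟩, hτ, hμ⟩ := h1
      obtain ⟨B, rfl⟩ := Multiset.exists_cons_of_mem hτ
      have hcol := hL.col _ (Multiset.mem_cons_self _ _)
      have hcrd := hL.crd _ (Multiset.mem_cons_self _ _)
      have hok := hL.ok (fo (c, r, f)) (by simp)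
      simp only [fo] at hcol hcrd hok
      have key : ∀ (x : σ) (r' f' : Multiset σ) (k : Fin 3), r + f = x ::ₘ (r' + f') →
          f' ≤ f → k ∉ f'.map χ → (f'.map χ).Nodup →
          (2 * r'.card + (if -c = -1 then 1 else 0) < mt (c, r, f)) →
          ∃ (σ' : Type) (_ : Fintype σ') (m' : ℕ) (χ' : σ' → Fin 3)
          (L' : Multiset (ℤ × Multiset σ' × Multiset σ')),
          m ≤ m' ∧ Inv χ' L' ∧ (∀ τ ∈ L', τ.1 = 1 ∧ τ.2.1 = 0) ∧ PP σ' m' (mp (L'.map fo)) := by
        intro x r' f' k hx hle hk hf hlt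
        obtain ⟨j, hjk, hjx⟩ := exists_color2 k (χ x)
        have h2 := inv_step hx hle hk hf hjk hjx hL
        have h3 : PP (σ ⊕ Fin 2) (m + 1) (mp ((nl c x r' f' B).map fo)) := by
          rw [fo_out]
          apply mv hc (by norm_num)
          rw [← fo_in hx]
          exact h
        obtain ⟨σ', i', m', χ', L', h4, h5⟩ := ih (ms (nl c x r' f' B)) (by
          rw [ms_nl, ← hN, ms_cons]
          omega) (σ ⊕ Fin 2) (m + 1) (cn χ k j) (nl c x r' f' B) rfl h2 h3
        exact ⟨σ', i', m', χ', L', by omega, h5⟩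
      by_cases hr : r = 0
      · subst hr
        have hc1 : c = -1 := by
          by_contra hc1
          apply hμ
          simp [mt, hc1]
        subst hc1
        have hf0 : f ≠ 0 := by
          have := hok.2
          rwa [zero_add] at this
        obtain ⟨x, hxf⟩ := Multiset.exists_mem_of_ne_zero hf0
        obtain ⟨f', rfl⟩ := Multiset.exists_cons_of_mem hxf
        rw [Multiset.map_cons, Multiset.nodup_cons] at hcol
        exact key x 0 f' (χ x) (by simp) (Multiset.le_cons_self _ _) hcol.1 hcol.2 (by simp [mt])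
      · obtain ⟨x, hxr⟩ := Multiset.exists_mem_of_ne_zero hr
        obtain ⟨r', rfl⟩ := Multiset.exists_cons_of_mem hxr
        obtain ⟨k, hk⟩ := exists_color (f.map χ) (by
          rw [Multiset.card_map]
          rw [Multiset.card_add, Multiset.card_cons] at hcrd
          omega)
        refine key x r' f k (Multiset.cons_add x r' f) le_rfl hk hcol ?_
        unfold mt
        simp only [Multiset.card_cons]
        split_ifs <;> omega
    · push Not at h1
      refine ⟨σ, inferInstance, m, χ, L, le_rfl, hL, fun τ hτ => ?_, h⟩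
      have h2 := h1 τ hτ
      have hok := (hL.ok (fo τ) (Multiset.mem_map_of_mem _ hτ)).1
      simp only [fo] at hok
      unfold mt at h2
      rcases hok with h3 | h3
      · refine ⟨h3, ?_⟩
        rw [← Multiset.card_eq_zero]
        omega
      · rw [h3, if_pos rfl] at h2
        omega

end col

end Pool.Agent.Helper13HG
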