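import Pool.Agent.W206.CU.Red

/-!
# Reduction of the chain of moves to hypergraph polynomials

A polynomial with integral coefficients is a sum of monomials with coefficients `1` and `-1`. By the
moves `F ↦ F + (y - a) (t + e)` of `Pool.Agent.W206.CU` all variables can be made to occur at most
three times, all monomials become squarefree and of degree at most three.
-/

set_option autoImplicit false

namespace Pool.Agent.Helper13HG

open MvPolynomial Pool.Agent.W206.CU

/-- the monomial of a multiset of variables -/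
noncomputable def mo {σ : Type} (s : Multiset σ) : MvPolynomial σ ℤ := (s.map X).prod

/-- the polynomial of a multiset of monomials with coefficients -/
noncomputable def mp {σ : Type} (L : Multiset (ℤ × Multiset σ)) : MvPolynomial σ ℤ :=
  (L.map fun c => C c.1 * mo c.2).sum

section basic
variable {σ : Type}

theorem mo_zero : mo (0 : Multiset σ) = 1 := by simp [mo]

theorem mo_cons (x : σ) (s : Multiset σ) : mo (x ::ₘ s) = X x * mo s := by simp [mo]

theorem mo_add (s t : Multiset σ) : mo (s + t) = mo s * mo t := by simp [mo]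

theorem mp_zero : mp (0 : Multiset (ℤ × Multiset σ)) = 0 := by simp [mp]

theorem mp_cons (c : ℤ × Multiset σ) (L : Multiset (ℤ × Multiset σ)) :
    mp (c ::ₘ L) = C c.1 * mo c.2 + mp L := by simp [mp]

theorem mp_add (L L' : Multiset (ℤ × Multiset σ)) : mp (L + L') = mp L + mp L' := by simp [mp]

/-- the terms in more variables -/
def li (c : ℤ × Multiset σ) : ℤ × Multiset (σ ⊕ Fin 2) := (c.1, c.2.map Sum.inl)

theorem rename_mo (s : Multiset σ) :
    rename (Sum.inl : σ → σ ⊕ Fin 2) (mo s) = mo (s.map Sum.inl) := by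
  induction s using Multiset.induction_on with
  | empty => simp [mo_zero]
  | cons a s ih => rw [mo_cons, map_mul, ih, rename_X, Multiset.map_cons, mo_cons]

theorem rename_mp (L : Multiset (ℤ × Multiset σ)) :
    rename (Sum.inl : σ → σ ⊕ Fin 2) (mp L) = mp (L.map li) := by
  induction L using Multiset.induction_on with
  | empty => simp [mp_zero]
  | cons a s ih =>
    rw [mp_cons, map_add, ih, Multiset.map_cons, mp_cons, map_mul, rename_C, rename_mo]
    rfl

/-- the input of a move: all terms of `A` multiplied by the monomial `l` -/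
def mvIn (l : Multiset σ) (A B : Multiset (ℤ × Multiset σ)) : Multiset (ℤ × Multiset σ) :=
  A.map (fun c => (c.1, l + c.2)) + B

/-- the output of a move: `y = s l` -/
def mvOut (s : ℤ) (l : Multiset σ) (A B : Multiset (ℤ × Multiset σ)) :
    Multiset (ℤ × Multiset (σ ⊕ Fin 2)) :=
  (1, {Sum.inr 1, Sum.inr 0}) ::ₘ (-s, Sum.inr 1 ::ₘ l.map Sum.inl) ::ₘ
    (A.map (fun c => (s * c.1, Sum.inr 0 ::ₘ c.2.map Sum.inl)) + B.map li)

theorem mp_in (l : Multiset σ) (A : Multiset (ℤ × Multiset σ)) :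
    mp (A.map (fun c => (c.1, l + c.2))) = mo l * mp A := by
  induction A using Multiset.induction_on with
  | empty => simp [mp_zero]
  | cons a s ih =>
    rw [Multiset.map_cons, mp_cons, mp_cons, ih, mo_add]
    ring

theorem mp_out (s : ℤ) (A : Multiset (ℤ × Multiset σ)) :
    mp (A.map (fun c => (s * c.1, (Sum.inr 0 : σ ⊕ Fin 2) ::ₘ c.2.map Sum.inl))) =
      C s * X (Sum.inr 0) * rename Sum.inl (mp A) := by
  induction A using Multiset.induction_on with
  | empty => simp [mp_zero]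
  | cons a t ih =>
    rw [Multiset.map_cons, mp_cons, mp_cons, ih, mo_cons, C_mul, map_add, map_mul, rename_C,
      rename_mo]
    ring

variable {PP : ∀ (ρ : Type) [Finite ρ], ℕ → MvPolynomial ρ ℤ → Prop}

theorem mv (hc : Chain PP) [Finite σ] {m : ℕ} {s : ℤ} (hs : s * s = 1) (l : Multiset σ)
    (A B : Multiset (ℤ × Multiset σ)) (h : PP σ m (mp (mvIn l A B))) :
    PP (σ ⊕ Fin 2) (m + 1) (mp (mvOut s l A B)) := by
  have h1 := hc.shear h (C s * mo l) (C s * mp A)
  convert h1 using 1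
  have hs' : (C s * C s : MvPolynomial (σ ⊕ Fin 2) ℤ) = 1 := by rw [← C_mul, hs, C_1]
  have e0 : mo ({Sum.inr 1, Sum.inr 0} : Multiset (σ ⊕ Fin 2)) =
      X (Sum.inr 1) * X (Sum.inr 0) := by
    simp [mo]
  rw [mvIn, mvOut, mp_cons, mp_cons, mp_add, mp_add, mp_out, mp_in, ← rename_mp]
  simp only [map_add, map_mul, rename_C, e0, mo_cons, ← rename_mo, map_neg, map_one]
  linear_combination (rename Sum.inl (mo l) * rename Sum.inl (mp A)) * hs'

/-- multiplicity -/
noncomputable def cnt (v : σ) (s : Multiset σ) : ℕ :=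
  @Multiset.count σ (fun a b => Classical.propDecidable (a = b)) v s

theorem cnt_zero (v : σ) : cnt v 0 = 0 := by simp [cnt]

theorem cnt_add (v : σ) (s t : Multiset σ) : cnt v (s + t) = cnt v s + cnt v t := by simp [cnt]

theorem cnt_self (v : σ) (s : Multiset σ) : cnt v (v ::ₘ s) = cnt v s + 1 := by
  exact @Multiset.count_cons_self σ (fun a b => Classical.propDecidable (a = b)) v s

theorem cnt_ne {v a : σ} (h : v ≠ a) (s : Multiset σ) : cnt v (a ::ₘ s) = cnt v s := by
  exact @Multiset.count_cons_of_ne σ (fun a b => Classical.propDecidable (a = b)) v a h s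

theorem cnt_eq_zero {v : σ} {s : Multiset σ} : cnt v s = 0 ↔ v ∉ s := by
  exact @Multiset.count_eq_zero σ (fun a b => Classical.propDecidable (a = b)) s v

theorem cnt_inl (v : σ) (s : Multiset σ) :
    cnt (Sum.inl v) (s.map (Sum.inl : σ → σ ⊕ Fin 2)) = cnt v s := by
  induction s using Multiset.induction_on with
  | empty => rw [Multiset.map_zero, cnt_zero, cnt_zero]
  | cons a s ih =>
    rw [Multiset.map_cons]
    by_cases h : v = a
    · subst h
      rw [cnt_self, cnt_self, ih]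
    · rw [cnt_ne h, cnt_ne (by simpa using h), ih]

theorem cnt_inr (j : Fin 2) (s : Multiset σ) :
    cnt (Sum.inr j) (s.map (Sum.inl : σ → σ ⊕ Fin 2)) = 0 := by
  rw [cnt_eq_zero]
  intro h
  obtain ⟨a, _, ha⟩ := Multiset.mem_map.1 h
  cases ha

/-- the number of occurrences of a variable -/
noncomputable def occ (v : σ) (L : Multiset (ℤ × Multiset σ)) : ℕ :=
  (L.map fun c => cnt v c.2).sum

theorem occ_zero (v : σ) : occ v 0 = 0 := by simp [occ]

theorem occ_cons (v : σ) (c : ℤ × Multiset σ) (L : Multiset (ℤ × Multiset σ)) :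
    occ v (c ::ₘ L) = cnt v c.2 + occ v L := by simp [occ]

theorem occ_add (v : σ) (L L' : Multiset (ℤ × Multiset σ)) :
    occ v (L + L') = occ v L + occ v L' := by simp [occ]

theorem occ_li (v : σ) (L : Multiset (ℤ × Multiset σ)) :
    occ (Sum.inl v) (L.map li) = occ v L := by
  induction L using Multiset.induction_on with
  | empty => simp [occ_zero]
  | cons a s ih =>
    rw [Multiset.map_cons, occ_cons, occ_cons, ih, li, cnt_inl]

theorem occ_li_inr (j : Fin 2) (L : Multiset (ℤ × Multiset σ)) :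
    occ (Sum.inr j) (L.map li) = 0 := by
  induction L using Multiset.induction_on with
  | empty => simp [occ_zero]
  | cons a s ih =>
    rw [Multiset.map_cons, occ_cons, ih, li, cnt_inr]

theorem occ_in (v : σ) (l : Multiset σ) (A B : Multiset (ℤ × Multiset σ)) :
    occ v (mvIn l A B) = A.card * cnt v l + occ v A + occ v B := by
  rw [mvIn, occ_add]
  congr 1
  induction A using Multiset.induction_on with
  | empty => simp [occ_zero]
  | cons a s ih =>
    rw [Multiset.map_cons, occ_cons, occ_cons, ih, Multiset.card_cons, cnt_add]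
    ring

theorem occ_out (v : σ) (s : ℤ) (l : Multiset σ) (A B : Multiset (ℤ × Multiset σ)) :
    occ (Sum.inl v) (mvOut s l A B) = cnt v l + occ v A + occ v B := by
  rw [mvOut, occ_cons, occ_cons, occ_add, occ_li]
  have e1 : occ (Sum.inl v) (A.map (fun c => (s * c.1, (Sum.inr 0 : σ ⊕ Fin 2) ::ₘ
      c.2.map Sum.inl))) = occ v A := by
    induction A using Multiset.induction_on with
    | empty => simp [occ_zero]
    | cons a s ih =>
      rw [Multiset.map_cons, occ_cons, occ_cons, ih]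
      congr 1
      simp only
      rw [cnt_ne (by simp), cnt_inl]
  have e2 : cnt (Sum.inl v) ({Sum.inr 1, Sum.inr 0} : Multiset (σ ⊕ Fin 2)) = 0 := by
    rw [cnt_eq_zero]
    simp
  have e3 : cnt (Sum.inl v : σ ⊕ Fin 2) (Sum.inr 1 ::ₘ l.map Sum.inl) =
      cnt v l := by
    rw [cnt_ne (by simp), cnt_inl]
  rw [e1]
  simp only [e2, e3]
  ring

theorem occ_y (s : ℤ) (l : Multiset σ) (A B : Multiset (ℤ × Multiset σ)) :
    occ (Sum.inr 0) (mvOut s l A B) = 1 + A.card := by
  rw [mvOut, occ_cons, occ_cons, occ_add, occ_li_inr]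
  have e1 : occ (Sum.inr 0) (A.map (fun c => (s * c.1, (Sum.inr 0 : σ ⊕ Fin 2) ::ₘ
      c.2.map Sum.inl))) = A.card := by
    induction A using Multiset.induction_on with
    | empty => simp [occ_zero]
    | cons a s ih =>
      rw [Multiset.map_cons, occ_cons, ih, Multiset.card_cons]
      simp only
      rw [cnt_self, cnt_inr]
      ring
  have e2 : cnt (Sum.inr 0) ({Sum.inr 1, Sum.inr 0} : Multiset (σ ⊕ Fin 2)) = 1 := by
    rw [Multiset.insert_eq_cons, cnt_ne (by simp), ← Multiset.cons_zero, cnt_self, cnt_zero]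
  have e3 : cnt (Sum.inr 0 : σ ⊕ Fin 2) (Sum.inr 1 ::ₘ l.map Sum.inl) = 0 := by
    rw [cnt_ne (by simp), cnt_inr]
  rw [e1]
  simp only [e2, e3]
  ring

theorem occ_t (s : ℤ) (l : Multiset σ) (A B : Multiset (ℤ × Multiset σ)) :
    occ (Sum.inr 1) (mvOut s l A B) = 2 := by
  rw [mvOut, occ_cons, occ_cons, occ_add, occ_li_inr]
  have e1 : occ (Sum.inr 1) (A.map (fun c => (s * c.1, (Sum.inr 0 : σ ⊕ Fin 2) ::ₘ
      c.2.map Sum.inl))) = 0 := by
    induction A using Multiset.induction_on with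
    | empty => simp [occ_zero]
    | cons a s ih =>
      rw [Multiset.map_cons, occ_cons, ih]
      simp only
      rw [cnt_ne (by simp), cnt_inr]
  have e2 : cnt (Sum.inr 1) ({Sum.inr 1, Sum.inr 0} : Multiset (σ ⊕ Fin 2)) = 1 := by
    rw [Multiset.insert_eq_cons, cnt_self, ← Multiset.cons_zero, cnt_ne (by simp), cnt_zero]
  have e3 : cnt (Sum.inr 1 : σ ⊕ Fin 2) (Sum.inr 1 ::ₘ l.map Sum.inl) = 1 := by
    rw [cnt_self, cnt_inr]
  rw [e1]
  simp only [e2, e3]

/-! ### The measure -/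

/-- the number of different variables -/
noncomputable def dd (s : Multiset σ) : ℕ :=
  Multiset.card (@Multiset.dedup σ (fun a b => Classical.propDecidable (a = b)) s)

theorem dd_zero : dd (0 : Multiset σ) = 0 := by simp [dd]

theorem dd_mem {x : σ} {s : Multiset σ} (h : x ∈ s) : dd (x ::ₘ s) = dd s := by
  unfold dd
  rw [@Multiset.dedup_cons_of_mem σ (fun a b => Classical.propDecidable (a = b)) x s h]

theorem dd_notMem {x : σ} {s : Multiset σ} (h : x ∉ s) : dd (x ::ₘ s) = dd s + 1 := by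
  unfold dd
  rw [@Multiset.dedup_cons_of_notMem σ (fun a b => Classical.propDecidable (a = b)) x s h,
    Multiset.card_cons]

theorem dd_le (s : Multiset σ) : dd s ≤ s.card := by
  unfold dd
  exact Multiset.card_le_card
    (@Multiset.dedup_le σ (fun a b => Classical.propDecidable (a = b)) s)

theorem dd_nodup {s : Multiset σ} (h : s.Nodup) : dd s = s.card := by
  unfold dd
  rw [@Multiset.dedup_eq_self σ (fun a b => Classical.propDecidable (a = b)) s |>.2 h]

theorem dd_map (s : Multiset σ) : dd (s.map (Sum.inl : σ → σ ⊕ Fin 2)) = dd s := by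
  induction s using Multiset.induction_on with
  | empty => rw [Multiset.map_zero, dd_zero, dd_zero]
  | cons a s ih =>
    rw [Multiset.map_cons]
    by_cases h : a ∈ s
    · rw [dd_mem h, dd_mem (Multiset.mem_map_of_mem _ h), ih]
    · rw [dd_notMem h, dd_notMem (by simpa using h), ih]

theorem inr_notMem (j : Fin 2) (s : Multiset σ) : (Sum.inr j : σ ⊕ Fin 2) ∉ s.map Sum.inl := by
  intro h
  obtain ⟨a, _, ha⟩ := Multiset.mem_map.1 h
  cases ha

/-- the defect of a monomial: repeated variables, and the excess of the degree over three -/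
noncomputable def ge (s : Multiset σ) : ℕ := (s.card - dd s) + (s.card - 3)

theorem ge_map (s : Multiset σ) : ge (s.map (Sum.inl : σ → σ ⊕ Fin 2)) = ge s := by
  unfold ge
  rw [Multiset.card_map, dd_map]

theorem ge_inr (j : Fin 2) (s : Multiset σ) :
    ge (Sum.inr j ::ₘ s.map (Sum.inl : σ → σ ⊕ Fin 2)) = (s.card - dd s) + (s.card + 1 - 3) := by
  unfold ge
  rw [Multiset.card_cons, Multiset.card_map, dd_notMem (inr_notMem j s), dd_map]
  congr 1
  omega

theorem ge_pair : ge ({Sum.inr 1, Sum.inr 0} : Multiset (σ ⊕ Fin 2)) = 0 := by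
  have h : ({Sum.inr 1, Sum.inr 0} : Multiset (σ ⊕ Fin 2)).Nodup := by simp
  unfold ge
  rw [dd_nodup h]
  simp

/-- the total defect -/
noncomputable def gs (L : Multiset (ℤ × Multiset σ)) : ℕ := (L.map fun c => ge c.2).sum

theorem gs_cons (c : ℤ × Multiset σ) (L : Multiset (ℤ × Multiset σ)) :
    gs (c ::ₘ L) = ge c.2 + gs L := by simp [gs]

theorem gs_add (L L' : Multiset (ℤ × Multiset σ)) : gs (L + L') = gs L + gs L' := by simp [gs]

theorem gs_li (L : Multiset (ℤ × Multiset σ)) : gs (L.map li) = gs L := by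
  unfold gs
  rw [Multiset.map_map]
  congr 1
  refine Multiset.map_congr rfl fun c _ => ?_
  exact ge_map c.2

/-- the measure -/
noncomputable def me {σ : Type} [Fintype σ] (L : Multiset (ℤ × Multiset σ)) : ℕ :=
  ∑ v, (occ v L - 3) + gs L

theorem sum_occ_out [Fintype σ] (s : ℤ) (l : Multiset σ) (A B : Multiset (ℤ × Multiset σ)) :
    ∑ v, (occ v (mvOut s l A B) - 3) =
      ∑ v, (cnt v l + occ v A + occ v B - 3) + (1 + A.card - 3) := by
  rw [Fintype.sum_sum_type, Fin.sum_univ_two, occ_y, occ_t]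
  simp only [occ_out]
  omega

theorem gs_out (s : ℤ) (l : Multiset σ) (hl : l.Nodup) (hl2 : l.card ≤ 2)
    (A B : Multiset (ℤ × Multiset σ)) :
    gs (mvOut s l A B) =
      (A.map fun c => (c.2.card - dd c.2) + (c.2.card + 1 - 3)).sum + gs B := by
  rw [mvOut, gs_cons, gs_cons, gs_add, gs_li]
  have e1 : gs (A.map (fun c => (s * c.1, (Sum.inr 0 : σ ⊕ Fin 2) ::ₘ
      c.2.map Sum.inl))) = (A.map fun c => (c.2.card - dd c.2) + (c.2.card + 1 - 3)).sum := by
    unfold gs
    rw [Multiset.map_map]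
    congr 1
    refine Multiset.map_congr rfl fun c _ => ?_
    exact ge_inr 0 c.2
  rw [e1]
  simp only [ge_pair, ge_inr, dd_nodup hl]
  omega

theorem exists_of_occ {v : σ} {L : Multiset (ℤ × Multiset σ)} (h : 0 < occ v L) :
    ∃ c ∈ L, v ∈ c.2 := by
  by_contra hn
  push Not at hn
  have : occ v L = 0 := by
    unfold occ
    apply Multiset.sum_eq_zero
    intro x hx
    obtain ⟨c, hc, rfl⟩ := Multiset.mem_map.1 hx
    exact cnt_eq_zero.2 (hn c hc)
  omega

theorem cnt_nodup {v : σ} {s : Multiset σ} (h : s.Nodup) : cnt v s ≤ 1 :=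
  (@Multiset.nodup_iff_count_le_one σ (fun a b => Classical.propDecidable (a = b)) s).1 h v

theorem exists_dup {s : Multiset σ} (h : ¬ s.Nodup) : ∃ x e, s = x ::ₘ e ∧ x ∈ e := by
  rw [Multiset.nodup_iff_le] at h
  push Not at h
  obtain ⟨a, ha⟩ := h
  obtain ⟨e, he⟩ := Multiset.le_iff_exists_add.1 ha
  exact ⟨a, a ::ₘ e, by rw [he]; simp, Multiset.mem_cons_self _ _⟩

/-- coefficients `1` and `-1`, no constant monomial -/
def Ok (L : Multiset (ℤ × Multiset σ)) : Prop := ∀ c ∈ L, (c.1 = 1 ∨ c.1 = -1) ∧ c.2 ≠ 0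

theorem ok_out {s : ℤ} (hs : s = 1 ∨ s = -1) {l : Multiset σ} {A B : Multiset (ℤ × Multiset σ)}
    (h : Ok (mvIn l A B)) : Ok (mvOut s l A B) := by
  intro c hc
  rw [mvOut, Multiset.mem_cons, Multiset.mem_cons, Multiset.mem_add] at hc
  rcases hc with rfl | rfl | hc | hc
  · exact ⟨Or.inl rfl, by simp⟩
  · exact ⟨by rcases hs with rfl | rfl <;> simp, by simp⟩
  · obtain ⟨d, hd, rfl⟩ := Multiset.mem_map.1 hc
    have h1 := (h (d.1, l + d.2) (Multiset.mem_add.2 (Or.inl (Multiset.mem_map.2 ⟨d, hd, rfl⟩)))).1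
    refine ⟨?_, by simp⟩
    simp only at h1 ⊢
    rcases hs with rfl | rfl <;> rcases h1 with h1 | h1 <;> rw [h1] <;> simp
  · obtain ⟨d, hd, rfl⟩ := Multiset.mem_map.1 hc
    have h1 := h d (Multiset.mem_add.2 (Or.inr hd))
    refine ⟨h1.1, ?_⟩
    intro h2
    exact h1.2 (Multiset.map_eq_zero.1 h2)

theorem step_i {σ : Type} [Fintype σ] {L : Multiset (ℤ × Multiset σ)}
    (h : ∃ c ∈ L, ¬ c.2.Nodup) :
    ∃ (l : Multiset σ) (A B : Multiset (ℤ × Multiset σ)), L = mvIn l A B ∧
      me (mvOut 1 l A B) < me L := by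
  obtain ⟨⟨k, s⟩, hc, hs⟩ := h
  obtain ⟨B, rfl⟩ := Multiset.exists_cons_of_mem hc
  obtain ⟨x, e, he, hx⟩ := exists_dup hs
  simp only at he
  subst he
  have hL : ((k, x ::ₘ e) ::ₘ B : Multiset (ℤ × Multiset σ)) = mvIn {x} {(k, e)} B := by
    simp [mvIn]
  refine ⟨{x}, {(k, e)}, B, hL, ?_⟩
  unfold me
  rw [sum_occ_out, gs_out 1 {x} (Multiset.nodup_singleton x) (by simp)]
  have h1 : ∑ v, (occ v (((k, x ::ₘ e) ::ₘ B : Multiset (ℤ × Multiset σ))) - 3) =
      ∑ v, (cnt v {x} + occ v {(k, e)} + occ v B - 3) := by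
    refine Finset.sum_congr rfl fun v _ => ?_
    rw [hL, occ_in, Multiset.card_singleton, one_mul]
  rw [h1, gs_cons]
  simp only [Multiset.card_singleton, Multiset.map_singleton, Multiset.sum_singleton]
  unfold ge
  rw [Multiset.card_cons, dd_mem hx]
  have := dd_le e
  omega

theorem step_ii {σ : Type} [Fintype σ] {L : Multiset (ℤ × Multiset σ)}
    (h0 : ∀ c ∈ L, c.2.Nodup) (h : ∃ v, 4 ≤ occ v L) :
    ∃ (l : Multiset σ) (A B : Multiset (ℤ × Multiset σ)), L = mvIn l A B ∧
      me (mvOut 1 l A B) < me L := by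
  obtain ⟨v, hv⟩ := h
  obtain ⟨⟨k, s⟩, hc, hs⟩ := exists_of_occ (show 0 < occ v L by omega)
  obtain ⟨L1, rfl⟩ := Multiset.exists_cons_of_mem hc
  have hn := h0 _ hc
  rw [occ_cons] at hv
  have h1 := cnt_nodup (v := v) hn
  obtain ⟨⟨k', s'⟩, hc', hs'⟩ := exists_of_occ (v := v) (L := L1) (by omega)
  obtain ⟨B, rfl⟩ := Multiset.exists_cons_of_mem hc'
  have hn' := h0 _ (Multiset.mem_cons_of_mem hc')
  simp only at hs hs' hn hn'
  obtain ⟨e, rfl⟩ := Multiset.exists_cons_of_mem hs
  obtain ⟨e', rfl⟩ := Multiset.exists_cons_of_mem hs'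
  have hL : ((k, v ::ₘ e) ::ₘ (k', v ::ₘ e') ::ₘ B : Multiset (ℤ × Multiset σ)) =
      mvIn {v} {(k, e), (k', e')} B := by
    simp [mvIn]
  refine ⟨{v}, {(k, e), (k', e')}, B, hL, ?_⟩
  unfold me
  rw [sum_occ_out, gs_out 1 {v} (Multiset.nodup_singleton v) (by simp)]
  have hcard : ({(k, e), (k', e')} : Multiset (ℤ × Multiset σ)).card = 2 := rfl
  have h2 : ∑ w, (cnt w {v} + occ w {(k, e), (k', e')} + occ w B - 3) <
      ∑ w, (occ w (((k, v ::ₘ e) ::ₘ (k', v ::ₘ e') ::ₘ B : Multiset (ℤ × Multiset σ))) - 3) := by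
    apply Finset.sum_lt_sum
    · intro w _
      rw [hL, occ_in, hcard]
      omega
    · refine ⟨v, Finset.mem_univ v, ?_⟩
      have h3 : cnt v {v} = 1 := by
        rw [← Multiset.cons_zero, cnt_self, cnt_zero]
      have h4 : 4 ≤ occ v (mvIn {v} {(k, e), (k', e')} B) := by
        rw [← hL, occ_cons]
        exact hv
      rw [hL]
      rw [occ_in, hcard, h3] at h4 ⊢
      omega
  rw [gs_cons, gs_cons, hcard]
  have h5 : ((({(k, e), (k', e')} : Multiset (ℤ × Multiset σ)).map fun c =>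
      (c.2.card - dd c.2) + (c.2.card + 1 - 3)).sum) =
      ((e.card - dd e) + (e.card + 1 - 3)) + ((e'.card - dd e') + (e'.card + 1 - 3)) := by
    simp
  rw [h5]
  unfold ge
  rw [Multiset.card_cons, Multiset.card_cons, dd_nodup hn, dd_nodup hn', Multiset.card_cons,
    Multiset.card_cons, dd_nodup (Multiset.nodup_cons.1 hn).2, dd_nodup (Multiset.nodup_cons.1 hn').2]
  omega

theorem step_iii {σ : Type} [Fintype σ] {L : Multiset (ℤ × Multiset σ)}
    (h0 : ∀ c ∈ L, c.2.Nodup) (h : ∃ c ∈ L, 4 ≤ c.2.card) :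
    ∃ (l : Multiset σ) (A B : Multiset (ℤ × Multiset σ)), L = mvIn l A B ∧
      me (mvOut 1 l A B) < me L := by
  obtain ⟨⟨k, s⟩, hc, hs⟩ := h
  have hn := h0 _ hc
  obtain ⟨B, rfl⟩ := Multiset.exists_cons_of_mem hc
  simp only at hs hn
  obtain ⟨x, s1, rfl⟩ : ∃ x s1, s = x ::ₘ s1 := by
    have : s ≠ 0 := by
      rintro rfl
      simp at hs
    obtain ⟨x, hx⟩ := Multiset.exists_mem_of_ne_zero this
    exact ⟨x, Multiset.exists_cons_of_mem hx⟩
  rw [Multiset.card_cons] at hs
  obtain ⟨y, e, rfl⟩ : ∃ y e, s1 = y ::ₘ e := by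
    have : s1 ≠ 0 := by
      rintro rfl
      simp at hs
    obtain ⟨x, hx⟩ := Multiset.exists_mem_of_ne_zero this
    exact ⟨x, Multiset.exists_cons_of_mem hx⟩
  rw [Multiset.card_cons] at hs
  have hL : ((k, x ::ₘ y ::ₘ e) ::ₘ B : Multiset (ℤ × Multiset σ)) =
      mvIn {x, y} {(k, e)} B := by
    simp [mvIn]
  have hl : ({x, y} : Multiset σ).Nodup := by
    have h1 := (Multiset.nodup_cons.1 hn).1
    rw [Multiset.mem_cons] at h1
    push Not at h1
    simp [h1.1]
  refine ⟨{x, y}, {(k, e)}, B, hL, ?_⟩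
  unfold me
  rw [sum_occ_out, gs_out 1 {x, y} hl (by simp)]
  have h1 : ∑ v, (occ v (((k, x ::ₘ y ::ₘ e) ::ₘ B : Multiset (ℤ × Multiset σ))) - 3) =
      ∑ v, (cnt v {x, y} + occ v {(k, e)} + occ v B - 3) := by
    refine Finset.sum_congr rfl fun v _ => ?_
    rw [hL, occ_in, Multiset.card_singleton, one_mul]
  rw [h1, gs_cons]
  simp only [Multiset.card_singleton, Multiset.map_singleton, Multiset.sum_singleton]
  unfold ge
  rw [dd_nodup hn, Multiset.card_cons, Multiset.card_cons,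
    dd_nodup (Multiset.nodup_cons.1 (Multiset.nodup_cons.1 hn).2).2]
  omega

/-- **All variables occur at most three times, all monomials are squarefree of degree at most
three.** -/
theorem phaseR (hc : Chain PP) (N : ℕ) : ∀ (σ : Type) [Fintype σ] (m : ℕ)
    (L : Multiset (ℤ × Multiset σ)), me L = N → Ok L → PP σ m (mp L) →
    ∃ (σ' : Type) (_ : Fintype σ') (m' : ℕ) (L' : Multiset (ℤ × Multiset σ')),
      m ≤ m' ∧ Ok L' ∧ (∀ c ∈ L', c.2.Nodup) ∧ (∀ c ∈ L', c.2.card ≤ 3) ∧
      (∀ v, occ v L' ≤ 3) ∧ PP σ' m' (mp L') := by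
  induction N using Nat.strong_induction_on with
  | _ N ih =>
    intro σ _ m L hN hL h
    have key : (∃ (l : Multiset σ) (A B : Multiset (ℤ × Multiset σ)), L = mvIn l A B ∧
      me (mvOut 1 l A B) < me L) → ∃ (σ' : Type) (_ : Fintype σ') (m' : ℕ)
      (L' : Multiset (ℤ × Multiset σ')),
      m ≤ m' ∧ Ok L' ∧ (∀ c ∈ L', c.2.Nodup) ∧ (∀ c ∈ L', c.2.card ≤ 3) ∧
      (∀ v, occ v L' ≤ 3) ∧ PP σ' m' (mp L') := by
      rintro ⟨l, A, B, rfl, h1⟩
      obtain ⟨σ', i', m', L', h2, h3⟩ := ih _ (hN ▸ h1) (σ ⊕ Fin 2) (m + 1) (mvOut 1 l A B) rfl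
        (ok_out (Or.inl rfl) hL) (mv hc (by norm_num) l A B h)
      exact ⟨σ', i', m', L', by omega, h3⟩
    by_cases h1 : ∃ c ∈ L, ¬ c.2.Nodup
    · exact key (step_i h1)
    push Not at h1
    by_cases h2 : ∃ v, 4 ≤ occ v L
    · exact key (step_ii h1 h2)
    push Not at h2
    by_cases h3 : ∃ c ∈ L, 4 ≤ c.2.card
    · exact key (step_iii h1 h3)
    push Not at h3
    exact ⟨σ, inferInstance, m, L, le_rfl, hL, h1, fun c hc' => by have := h3 c hc'; omega,
      fun v => by have := h2 v; omega, h⟩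

end basic

end Pool.Agent.Helper13HG
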